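import Pool.Agent.W860.OB.Gap

set_option autoImplicit false
open scoped Pointwise

namespace Pool.Agent.Results.MP_626a77_co.GapCover

/-- Freiman-Ruzsa theorem in the integers (and in every torsion-free abelian group) with
polynomially many translates of a generalised arithmetic progression of logarithmic rank: for every
`ε ∈ (0, 1]`, a finite nonempty set with `|A+A| ≤ K|A|` is covered by `(2K)^(30000/ε)` translates of
a progression `{∑ c_i v_i : |c_i| ≤ L_i}` (the lattice points of a box) of rank at most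
`(30000/ε) log 2K` and volume `∏ (2 L_i + 1) ≤ exp((4000000/ε²) (log 2K)^(1+ε)) |A|`. -/
theorem result {Γ : Type*} [AddCommGroup Γ] [DecidableEq Γ]
    (htf : ∀ (n : ℕ) (x : Γ), n ≠ 0 → n • x = 0 → x = 0)
    (ε : ℝ) (hε0 : 0 < ε) (hε1 : ε ≤ 1)
    (K : ℝ) (A : Finset Γ) (hA : A.Nonempty) (hK : ((A + A).card : ℝ) ≤ K * (A.card : ℝ)) :
    ∃ (d : ℕ) (v : Fin d → Γ) (L : Fin d → ℕ) (T : Finset Γ),
      (d : ℝ) ≤ 30000 / ε * Real.log (2 * K) ∧
      ((∏ i, (2 * L i + 1) : ℕ) : ℝ) ≤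
        Real.exp (4000000 / ε ^ 2 * Real.log (2 * K) ^ (1 + ε)) * (A.card : ℝ) ∧
      (T.card : ℝ) ≤ (2 * K) ^ (30000 / ε) ∧
      ∀ a ∈ A, ∃ t ∈ T, ∃ c : Fin d → ℤ, (∀ i, |c i| ≤ L i) ∧ a = t + ∑ i, c i • v i := by
  obtain ⟨d, v, L, H, T, hd, hH, hvol, hT, hcov⟩ := W860.OB.gap_cover hA hK hε0 hε1
  have hHbot : ∀ h ∈ H, h = 0 := by
    intro h hh
    have h1 : Nat.card H • (⟨h, hh⟩ : H) = 0 := card_nsmul_eq_zero'
    have h2 : Nat.card H • h = 0 := by
      have h3 := congrArg H.subtype h1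
      rw [map_nsmul, map_zero] at h3
      exact h3
    exact htf _ h Nat.card_pos.ne' h2
  have hHcard : Nat.card H = 1 := by
    rw [Nat.card_eq_one_iff_unique]
    refine ⟨⟨fun a b => Subtype.ext ?_⟩, ⟨0⟩⟩
    rw [hHbot a.1 a.2, hHbot b.1 b.2]
  refine ⟨d, v, L, T, hd, ?_, hT, ?_⟩
  · rw [hHcard, Nat.cast_one, mul_one] at hvol
    exact hvol
  · intro a ha
    obtain ⟨t, ht, c, hc, h, hh, e⟩ := hcov a ha
    refine ⟨t, ht, c, hc, ?_⟩
    rw [e, hHbot h hh, add_zero]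

end Pool.Agent.Results.MP_626a77_co.GapCover
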